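import Mathlib
import Pool.Agent.H.MP_6dbda4_lc.A

namespace Pool.Agent.H.MP_906480_an

open Set Filter Topology Pool.Agent.H.MP_6dbda4_lc

def Lev (n : ℕ) : Finset ℕ := Finset.Ico (2 ^ n) (2 ^ (n + 1))

lemma mem_Lev {n t : ℕ} : t ∈ Lev n ↔ 2 ^ n ≤ t ∧ t < 2 * 2 ^ n := by
  simp [Lev, pow_succ, mul_comm]

lemma Lev_succ {n t : ℕ} : t ∈ Lev (n + 1) ↔ t / 2 ∈ Lev n := by
  rw [mem_Lev, mem_Lev, pow_succ]; omega

lemma Lev_uniq {n m t : ℕ} (h : t ∈ Lev n) (h' : t ∈ Lev m) : n = m := by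
  rw [mem_Lev] at h h'
  have key : ∀ a b : ℕ, 2 ^ a ≤ t → t < 2 * 2 ^ b → a ≤ b := fun a b h1 h2 => by
    by_contra hc
    have : 2 ^ (b + 1) ≤ 2 ^ a := Nat.pow_le_pow_right (by norm_num) (by omega)
    rw [pow_succ] at this; omega
  exact le_antisymm (key _ _ h.1 h'.2) (key _ _ h'.1 h.2)

lemma Lev_ex {t : ℕ} (h : t ≠ 0) : ∃ n, t ∈ Lev n :=
  ⟨Nat.log 2 t, Finset.mem_Ico.2 ⟨Nat.pow_log_le_self 2 h, Nat.lt_pow_succ_log_self (by norm_num) t⟩⟩

lemma sum_two (g : ℕ → ℝ) (m : ℕ) :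
    ∑ i ∈ Finset.range (2 * m), g i = ∑ t ∈ Finset.range m, (g (2 * t) + g (2 * t + 1)) := by
  induction m with
  | zero => simp
  | succ m ih => rw [Nat.mul_succ, Finset.sum_range_succ, Finset.sum_range_succ, ih, Finset.sum_range_succ]; ring

lemma sum_Lev (g : ℕ → ℝ) (n : ℕ) :
    ∑ i ∈ Lev (n + 1), g i = ∑ t ∈ Lev n, (g (2 * t) + g (2 * t + 1)) := by
  unfold Lev
  rw [Finset.sum_Ico_eq_sub _ (Nat.pow_le_pow_right (by norm_num) (by omega)),
    Finset.sum_Ico_eq_sub _ (Nat.pow_le_pow_right (by norm_num) (by omega)),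
    ← sum_two, ← sum_two, ← pow_succ', ← pow_succ']

def Additive (F : ℕ → ℝ) : Prop := F 0 = F 1 ∧ ∀ t, t ≠ 0 → F t = F (2 * t) + F (2 * t + 1)

lemma mass {F : ℕ → ℝ} (hF : Additive F) (h0 : F ≠ 0) :
    ∃ δ > 0, ∃ N, ∀ n ≥ N, δ ≤ ∑ t ∈ Lev n, |F t| := by
  obtain ⟨t, ht, h⟩ : ∃ t, t ≠ 0 ∧ F t ≠ 0 := by
    by_contra hc
    push Not at hc
    apply h0; funext t
    by_cases h : t = 0
    · rw [h, hF.1]; exact hc 1 one_ne_zero
    · exact hc t h
  obtain ⟨N, hN⟩ := Lev_ex ht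
  refine ⟨|F t|, abs_pos.2 h, N, fun n hn => ?_⟩
  induction n, hn using Nat.le_induction with
  | base => exact Finset.single_le_sum (f := fun t => |F t|) (fun _ _ => abs_nonneg _) hN
  | succ n _ ih =>
    rw [sum_Lev (fun t => |F t|)]
    refine ih.trans (Finset.sum_le_sum fun s hs => ?_)
    rw [hF.2 s (by have := (mem_Lev.1 hs).1; have := Nat.two_pow_pos n; omega)]
    exact abs_add_le _ _

lemma half (G : ℕ → ℝ) (R : Finset ℕ) : ∃ R' ⊆ R, ∑ t ∈ R, |G t| ≤ 2 * |∑ t ∈ R', G t| := by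
  have h := Finset.sum_filter_add_sum_filter_not R (fun t => 0 ≤ G t) (fun t => |G t|)
  have h1 : ∑ t ∈ R.filter (fun t => 0 ≤ G t), |G t| = ∑ t ∈ R.filter (fun t => 0 ≤ G t), G t :=
    Finset.sum_congr rfl fun t ht => abs_of_nonneg (Finset.mem_filter.1 ht).2
  have h2 : ∑ t ∈ R.filter (fun t => ¬ 0 ≤ G t), |G t| = -∑ t ∈ R.filter (fun t => ¬ 0 ≤ G t), G t := by
    rw [← Finset.sum_neg_distrib]
    exact Finset.sum_congr rfl fun t ht => abs_of_neg (not_le.1 (Finset.mem_filter.1 ht).2)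
  rw [h1, h2] at h
  rcases le_total (∑ t ∈ R.filter (fun t => 0 ≤ G t), G t) (-∑ t ∈ R.filter (fun t => ¬ 0 ≤ G t), G t) with a | a
  · exact ⟨_, Finset.filter_subset (fun t => ¬ 0 ≤ G t) R, by linarith [neg_le_abs (∑ t ∈ R.filter (fun t => ¬ 0 ≤ G t), G t)]⟩
  · exact ⟨_, Finset.filter_subset (fun t => 0 ≤ G t) R, by linarith [le_abs_self (∑ t ∈ R.filter (fun t => 0 ≤ G t), G t)]⟩

lemma pick {F : ℕ → ℝ} (hF : Additive F) (R : Finset ℕ) (hR : ∀ t ∈ R, t ≠ 0) (u : ℕ) :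
    ∃ c : Finset ℕ, (∀ t ∈ c, t / 2 ∈ R) ∧ (∀ t, 2 * t ∈ c → 2 * t + 1 ∉ c) ∧
      ∑ t ∈ R, |F t| ≤ 8 * |∑ t ∈ insert u c, F t| := by
  obtain ⟨e, he, h1⟩ : ∃ e, e < 2 ∧ ∑ t ∈ R, |F t| ≤ 2 * ∑ t ∈ R, |F (2 * t + e)| := by
    have : ∑ t ∈ R, |F t| ≤ ∑ t ∈ R, |F (2 * t + 0)| + ∑ t ∈ R, |F (2 * t + 1)| := by
      rw [← Finset.sum_add_distrib]
      exact Finset.sum_le_sum fun t ht => by rw [hF.2 t (hR t ht)]; exact abs_add_le _ _
    rcases le_total (∑ t ∈ R, |F (2 * t + 0)|) (∑ t ∈ R, |F (2 * t + 1)|) with a | a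
    · exact ⟨1, by norm_num, by linarith⟩
    · exact ⟨0, by norm_num, by linarith⟩
  obtain ⟨R', hR', h2⟩ := half (fun t => F (2 * t + e)) R
  have h3 : ∑ t ∈ R'.image (fun t => 2 * t + e), F t = ∑ t ∈ R', F (2 * t + e) :=
    Finset.sum_image fun a _ b _ h => by
      have h' : 2 * a + e = 2 * b + e := h
      omega
  have p1 : ∀ t ∈ R'.image (fun t => 2 * t + e), t / 2 ∈ R := by
    intro t ht
    obtain ⟨s, hs, rfl⟩ := Finset.mem_image.1 ht
    rw [show (2 * s + e) / 2 = s by omega]; exact hR' hs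
  have p2 : ∀ t, 2 * t ∈ R'.image (fun t => 2 * t + e) → 2 * t + 1 ∉ R'.image (fun t => 2 * t + e) := by
    intro t h h'
    obtain ⟨s, -, hs⟩ := Finset.mem_image.1 h
    obtain ⟨s', -, hs'⟩ := Finset.mem_image.1 h'
    omega
  by_cases hu : u ∈ R'.image (fun t => 2 * t + e)
  · refine ⟨_, p1, p2, ?_⟩
    rw [Finset.insert_eq_of_mem hu, h3]
    linarith [abs_nonneg (∑ t ∈ R', F (2 * t + e))]
  · by_cases h4 : ∑ t ∈ R, |F t| ≤ 8 * |F u|
    · exact ⟨∅, by simp, by simp, by simpa using h4⟩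
    · refine ⟨_, p1, p2, ?_⟩
      rw [Finset.sum_insert hu, h3]
      have := abs_sub (F u + ∑ t ∈ R', F (2 * t + e)) (F u)
      rw [add_sub_cancel_left] at this
      linarith

lemma diag (u : ℕ → ℕ → ℝ) (hu : ∀ j, Tendsto (u j) atTop (𝓝 0)) {η : ℝ} (hη : 0 < η) :
    ∃ J : ℕ → ℕ, (∀ k, ∑ j ∈ Finset.range (J k), u j k ≤ η) ∧ ∀ j, ∀ᶠ k in atTop, j < J k := by
  classical
  refine ⟨fun k => Nat.findGreatest (fun n => ∑ j ∈ Finset.range n, u j k ≤ η) k, fun k => ?_, fun j => ?_⟩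
  · exact Nat.findGreatest_spec (P := fun n => ∑ j ∈ Finset.range n, u j k ≤ η) (Nat.zero_le k) (by simpa using hη.le)
  · have h : Tendsto (fun k => ∑ i ∈ Finset.range (j + 1), u i k) atTop (𝓝 0) := by
      simpa using tendsto_finsetSum (Finset.range (j + 1)) fun i _ => hu i
    filter_upwards [h.eventually (ge_mem_nhds hη), eventually_ge_atTop (j + 1)] with k h1 h2
    exact Nat.le_findGreatest (P := fun n => ∑ j ∈ Finset.range n, u j k ≤ η) h2 h1

lemma adfam : ∃ M : W → Set ℕ, (∀ a, (M a).Infinite) ∧ ∀ a b, a ≠ b → (M a ∩ M b).Finite := by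
  obtain ⟨e⟩ : Nonempty (W ↪ (ℕ → Bool)) := by
    rw [← Cardinal.le_def]; simpa using W_card
  let g : W → ℕ → ℕ := fun a n => Encodable.encode (List.ofFn fun i : Fin n => e a i)
  have hg : ∀ a b n m, g a n = g b m → n = m ∧ ∀ i < n, e a i = e b i := by
    intro a b n m h
    have h1 := Encodable.encode_injective h
    have h2 : n = m := by simpa using congrArg List.length h1
    subst h2
    exact ⟨rfl, fun i hi => congrFun (List.ofFn_injective h1) ⟨i, hi⟩⟩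
  refine ⟨fun a => range (g a), fun a => infinite_range_of_injective fun n m h => (hg a a n m h).1,
    fun a b hab => ?_⟩
  obtain ⟨i, hi⟩ := Function.ne_iff.1 (e.injective.ne hab)
  refine ((finite_le_nat i).image (g a)).subset ?_
  rintro _ ⟨⟨n, rfl⟩, m, hm⟩
  refine ⟨n, ?_, rfl⟩
  by_contra hc
  exact hi ((hg a b n m hm.symm).2 i (by simpa using hc))

abbrev Dt := (ℕ → ℕ) × (ℕ → Finset ℕ)

def Br (p : ℕ → ℕ) : Prop := p 0 = 1 ∧ ∀ n, p (n + 1) / 2 = p n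

lemma Br.lev {p : ℕ → ℕ} (h : Br p) (n : ℕ) : p n ∈ Lev n := by
  induction n with
  | zero => rw [h.1]; simp [Lev]
  | succ n ih => rw [Lev_succ, h.2]; exact ih

lemma Br.ne {p q : ℕ → ℕ} (hp : Br p) (hq : Br q) {n m : ℕ} (h : p n ≠ q n) (hm : n ≤ m) : p m ≠ q m := by
  induction m, hm using Nat.le_induction with
  | base => exact h
  | succ m _ ih => intro h'; apply ih; rw [← hp.2, ← hq.2, h']

def Inv (M : Set ℕ) (d : Dt) : Prop :=
  Br d.1 ∧ (∀ n, d.2 n ⊆ Lev n) ∧ (∀ n, d.1 n ∈ d.2 n) ∧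
    (∀ n, (∀ k ∈ M, n ≠ 2 * k + 1) → d.2 n = {d.1 n}) ∧
    ∀ n t, 2 * t ∈ d.2 n → 2 * t + 1 ∈ d.2 n → d.1 n / 2 = t

def Rel (d e : Dt) : Prop := ∀ᶠ n in atTop, Disjoint (d.2 n) (e.2 n)

lemma branch (M : ℕ → Set ℕ) (D : ℕ → Dt) (hD : ∀ j, Inv (M j) (D j))
    (hM : ∀ i j, D i = D j ∨ (M i ∩ M j).Finite) :
    ∃ p, Br p ∧ ∀ j, ∀ᶠ n in atTop, p n ∉ (D j).2 n := by
  classical
  let ch : ℕ → ℕ → ℕ := fun n t =>
    if n % 2 = 1 then (if (D (n / 2)).1 (n + 1) = 2 * t then 2 * t + 1 else 2 * t)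
    else if h : ∃ j, n / 2 ∈ M j then (if 2 * t ∈ (D (Nat.find h)).2 (n + 1) then 2 * t + 1 else 2 * t)
    else 2 * t
  let p : ℕ → ℕ := fun n => Nat.rec 1 ch n
  have hp : ∀ n, p (n + 1) = ch n (p n) := fun n => rfl
  have hb : Br p := ⟨rfl, fun n => by rw [hp]; simp only [ch]; split_ifs <;> omega⟩
  refine ⟨p, hb, fun j => ?_⟩
  have h1 : p (2 * j + 1 + 1) ≠ (D j).1 (2 * j + 1 + 1) := by
    rw [hp]; simp only [ch]
    rw [if_pos (by omega), show (2 * j + 1) / 2 = j by omega]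
    split_ifs <;> omega
  have h2 : ∀ᶠ k in atTop, ∀ i ∈ Finset.range (j + 1), k ∈ M i → k ∈ M j → D i = D j := by
    refine (eventually_all_finset _).2 fun i _ => ?_
    rcases hM i j with h | h
    · exact Eventually.of_forall fun _ _ _ => h
    · rw [← Nat.cofinite_eq_atTop]
      exact (h.eventually_cofinite_notMem).mono fun k hk a b => absurd ⟨a, b⟩ hk
  obtain ⟨K, hK⟩ := eventually_atTop.1 h2
  filter_upwards [eventually_ge_atTop (2 * j + 3), eventually_ge_atTop (2 * K + 1)] with n a b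
  have a' : 2 * j + 3 ≤ n := a
  have b' : 2 * K + 1 ≤ n := b
  by_cases hn : ∀ k ∈ M j, n ≠ 2 * k + 1
  · rw [(hD j).2.2.2.1 n hn, Finset.mem_singleton]
    exact hb.ne (hD j).1 (n := 2 * j + 1 + 1) h1 (by omega)
  · push Not at hn
    obtain ⟨k, hk, rfl⟩ := hn
    have hex : ∃ i, 2 * k / 2 ∈ M i := ⟨j, by rwa [show 2 * k / 2 = k by omega]⟩
    have e1 : D (Nat.find hex) = D j := by
      have f1 : k ∈ M (Nat.find hex) := by
        have := Nat.find_spec hex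
        generalize Nat.find hex = i at this ⊢
        rwa [show 2 * k / 2 = k by omega] at this
      have f2 : Nat.find hex ≤ j := Nat.find_min' hex (by rwa [show 2 * k / 2 = k by omega])
      exact hK k (by omega) _ (Finset.mem_range.2 (by omega)) f1 hk
    have h3 : p (2 * k) ≠ (D j).1 (2 * k) := hb.ne (hD j).1 (n := 2 * j + 1 + 1) h1 (by omega)
    rw [hp]; simp only [ch]
    rw [if_neg (by omega), dif_pos hex, e1]
    split_ifs with h4
    · intro h5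
      have := (hD j).2.2.2.2 _ _ h4 h5
      rw [(hD j).1.2] at this
      exact h3 this.symm
    · exact h4

lemma stepN (M : ℕ → Set ℕ) (D : ℕ → Dt) (hD : ∀ j, Inv (M j) (D j))
    (hM : ∀ i j, D i = D j ∨ (M i ∩ M j).Finite) (M0 : Set ℕ) (h0 : M0.Infinite)
    (h1 : ∀ j, (M j ∩ M0).Finite) (F : ℕ → ℝ) :
    ∃ d, Inv M0 d ∧ (∀ j, Rel (D j) d) ∧ (Additive F → F ≠ 0 →
      (∀ j, Tendsto (fun m => F ((D j).1 (2 * m))) atTop (𝓝 0)) →
      ¬ Tendsto (fun n => ∑ t ∈ d.2 n, F t) atTop (𝓝 0)) := by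
  classical
  obtain ⟨p, hp, hav⟩ := branch M D hD hM
  obtain ⟨c, c1, c2, c3, c4⟩ : ∃ c : ℕ → Finset ℕ, (∀ k, ∀ t ∈ c k, t / 2 ∈ Lev (2 * k)) ∧
      (∀ k t, 2 * t ∈ c k → 2 * t + 1 ∉ c k) ∧ (∀ j, ∀ᶠ k in atTop, (D j).1 (2 * k + 1) ∉ c k) ∧
      (Additive F → F ≠ 0 → (∀ j, Tendsto (fun m => F ((D j).1 (2 * m))) atTop (𝓝 0)) →
        ∃ δ > 0, ∀ᶠ k in atTop, δ ≤ |∑ t ∈ insert (p (2 * k + 1)) (c k), F t|) := by
    by_cases H : Additive F ∧ F ≠ 0 ∧ ∀ j, Tendsto (fun m => F ((D j).1 (2 * m))) atTop (𝓝 0)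
    · obtain ⟨δ, hδ, N, hN⟩ := mass H.1 H.2.1
      obtain ⟨J, J1, J2⟩ := diag (fun j m => |F ((D j).1 (2 * m))|)
        (fun j => by simpa using (H.2.2 j).abs) (half_pos hδ)
      let O : ℕ → Finset ℕ := fun k => (Finset.range (J k)).image fun j => (D j).1 (2 * k)
      have := fun k => pick H.1 (Lev (2 * k) \ O k) (fun t ht => by
        have := (mem_Lev.1 (Finset.mem_sdiff.1 ht).1).1
        have := Nat.two_pow_pos (2 * k); omega) (p (2 * k + 1))
      choose c d1 d2 d3 using this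
      refine ⟨c, fun k t ht => (Finset.mem_sdiff.1 (d1 k t ht)).1, d2, fun j => (J2 j).mono fun k hk h => ?_,
        fun _ _ _ => ⟨δ / 16, by positivity, ?_⟩⟩
      · have := (Finset.mem_sdiff.1 (d1 k _ h)).2
        rw [(hD j).1.2] at this
        exact this (Finset.mem_image.2 ⟨j, Finset.mem_range.2 hk, rfl⟩)
      · filter_upwards [eventually_ge_atTop N] with k hk
        have e1 := hN (2 * k) (by omega)
        have e2 : ∑ t ∈ O k, |F t| ≤ δ / 2 :=
          (Finset.sum_image_le_of_nonneg (fun _ _ => abs_nonneg _)).trans (J1 k)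
        have e3 : O k ⊆ Lev (2 * k) := by
          intro t ht
          obtain ⟨j, -, rfl⟩ := Finset.mem_image.1 ht
          exact (hD j).1.lev _
        have e4 := Finset.sum_sdiff (f := fun t => |F t|) e3
        have := d3 k
        linarith
    · exact ⟨fun _ => ∅, by simp, by simp, by simp, fun a b c => absurd ⟨a, b, c⟩ H⟩
  let a : ℕ → Finset ℕ := fun n => if n % 2 = 1 ∧ n / 2 ∈ M0 then insert (p n) (c (n / 2)) else {p n}
  refine ⟨(p, a), ⟨hp, fun n t ht => ?_, fun n => ?_, fun n hn => ?_, fun n t h2 h3 => ?_⟩, fun j => ?_,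
    fun f1 f2 f3 hT => ?_⟩
  · simp only [a] at ht
    split_ifs at ht with h
    · rcases Finset.mem_insert.1 ht with rfl | ht
      · exact hp.lev n
      · rw [show n = 2 * (n / 2) + 1 by omega, Lev_succ]; exact c1 _ t ht
    · rw [Finset.mem_singleton.1 ht]; exact hp.lev n
  · simp only [a]; split_ifs <;> simp
  · simp only [a]; rw [if_neg]; rintro ⟨h2, h3⟩; exact hn _ h3 (by omega)
  · simp only [a] at h2 h3 ⊢
    split_ifs at h2 h3 with h
    · rcases Finset.mem_insert.1 h2 with h2 | h2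
      · omega
      · rcases Finset.mem_insert.1 h3 with h3 | h3
        · omega
        · exact absurd h3 (c2 _ _ h2)
    · rw [Finset.mem_singleton] at h2; omega
  · have e1 : ∀ᶠ k in atTop, k ∉ M j ∩ M0 := by
      rw [← Nat.cofinite_eq_atTop]; exact (h1 j).eventually_cofinite_notMem
    obtain ⟨K, hK⟩ := eventually_atTop.1 (e1.and (c3 j))
    filter_upwards [hav j, eventually_ge_atTop (2 * K)] with n h2 h3
    simp only [a]
    split_ifs with h
    · rw [Finset.disjoint_insert_right]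
      refine ⟨h2, ?_⟩
      have e2 := hK (n / 2) (by omega)
      rw [(hD j).2.2.2.1 n (fun k hk hn => e2.1 ⟨by rwa [show n / 2 = k by omega], h.2⟩),
        Finset.disjoint_singleton_left]
      have := e2.2
      rwa [show 2 * (n / 2) + 1 = n by omega] at this
    · exact Finset.disjoint_singleton_right.2 h2
  · obtain ⟨δ, hδ, hk⟩ := c4 f1 f2 f3
    have e1 : Tendsto (fun k => 2 * k + 1) atTop atTop :=
      tendsto_atTop_mono (fun k => by simp only [id]; omega) tendsto_id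
    have e2 := (hT.comp e1).abs
    rw [abs_zero] at e2
    have e3 : ∃ᶠ k in atTop, k ∈ M0 := by
      rw [← Nat.cofinite_eq_atTop]; exact frequently_cofinite_mem_iff_infinite.2 h0
    obtain ⟨k, k1, k2, k3⟩ := (e3.and_eventually (hk.and (e2.eventually (gt_mem_nhds hδ)))).exists
    simp only [Function.comp, a] at k3
    rw [if_pos ⟨by omega, by rwa [show (2 * k + 1) / 2 = k by omega]⟩,
      show (2 * k + 1) / 2 = k by omega] at k3
    linarith

theorem build (G : W → ℕ → ℝ) : ∃ D : W → Dt,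
    (∀ a, Br (D a).1 ∧ (∀ n, (D a).2 n ⊆ Lev n) ∧ (∀ n, (D a).1 n ∈ (D a).2 n) ∧
      ∀ m, (D a).2 (2 * m) = {(D a).1 (2 * m)}) ∧
    (∀ a b, a ≠ b → Rel (D a) (D b)) ∧
    ∀ b, (∃ a, a < b) → Additive (G b) → G b ≠ 0 →
      (∀ a, Tendsto (fun m => G b ((D a).1 (2 * m))) atTop (𝓝 0)) →
      ¬ Tendsto (fun n => ∑ t ∈ (D b).2 n, G b t) atTop (𝓝 0) := by
  obtain ⟨M, M1, M2⟩ := adfam
  have step : ∀ (b : W) (prev : ∀ a, a < b → Dt), ∃ d, Inv (M b) d ∧
      ((∃ a, a < b) → (∀ a h, Inv (M a) (prev a h)) → (∀ a h, Rel (prev a h) d) ∧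
        (Additive (G b) → G b ≠ 0 → (∀ a h, Tendsto (fun m => G b ((prev a h).1 (2 * m))) atTop (𝓝 0)) →
          ¬ Tendsto (fun n => ∑ t ∈ d.2 n, G b t) atTop (𝓝 0))) := by
    intro b prev
    by_cases H : (∃ a, a < b) ∧ ∀ a h, Inv (M a) (prev a h)
    · obtain ⟨e, he⟩ := (W_Iio b).exists_eq_range H.1
      have hl : ∀ j, e j < b := fun j => by
        have : e j ∈ Iio b := he ▸ mem_range_self j
        exact this
      obtain ⟨d, d1, d2, d3⟩ := stepN (fun j => M (e j)) (fun j => prev (e j) (hl j)) (fun j => H.2 _ _)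
        (fun i j => by
          by_cases h : e i = e j
          · left; congr 1
          · exact Or.inr (M2 _ _ h)) (M b) (M1 b) (fun j => M2 _ _ (hl j).ne) (G b)
      refine ⟨d, d1, fun _ _ => ⟨fun a h => ?_, fun f1 f2 f3 => d3 f1 f2 fun j => f3 _ _⟩⟩
      obtain ⟨j, rfl⟩ : a ∈ range e := he ▸ h
      exact d2 j
    · have hb : Br (fun n => 2 ^ n) := ⟨rfl, fun n => by simp only [pow_succ]; omega⟩
      refine ⟨(fun n => 2 ^ n, fun n => {2 ^ n}), ⟨hb, fun n => by simpa using hb.lev n, by simp,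
        fun _ _ => rfl, fun n t h _ => ?_⟩, fun h1 h2 => absurd ⟨h1, h2⟩ H⟩
      simp only [Finset.mem_singleton] at h ⊢; omega
  choose c c1 c2 using step
  let D : W → Dt := (wellFounded_lt (α := W)).fix c
  have e : ∀ b, D b = c b fun a _ => D a := (wellFounded_lt (α := W)).fix_eq c
  have h1 : ∀ b, Inv (M b) (D b) := fun b => by rw [e]; exact c1 _ _
  have h2 := fun b h => c2 b (fun a _ => D a) h (fun a _ => h1 a)
  refine ⟨D, fun a => ⟨(h1 a).1, (h1 a).2.1, (h1 a).2.2.1, fun m => (h1 a).2.2.2.1 _ fun k _ => by omega⟩,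
    fun a b hab => ?_, fun b h f1 f2 f3 => ?_⟩
  · rcases lt_or_gt_of_ne hab with h | h
    · rw [e b]; exact (h2 b ⟨a, h⟩).1 a h
    · have : Rel (D b) (D a) := by rw [e a]; exact (h2 a ⟨b, h⟩).1 b h
      exact this.mono fun n hn => hn.symm
  · rw [e b]; exact (h2 b h).2 f1 f2 fun a _ => f3 a

end Pool.Agent.H.MP_906480_an
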